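import Pool.Agent.Helper25.HL.Goals3

/-!
Packet HL-QL (MP_03bcbb_an).
-/

set_option autoImplicit false

open Filter Topology

noncomputable section

namespace Pool.Agent.Helper56.HL

open Pool.Agent.Helper25.HL

variable (P : ℕ → ℕ) (D : ∀ k, Lv (P k) (P (k + 1)))

theorem Qb_apply (c : ℕ) (x : XX P D) :
    Qb P D c x = ∑ k ∈ Finset.range c, emb P D k (x k) := by
  unfold Qb
  rw [ContinuousLinearMap.sum_apply]
  rfl

theorem Qb_coord (c : ℕ) (x : XX P D) (k : ℕ) :
    (Qb P D c x) k = if k ∈ Finset.range c then x k else 0 := by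
  classical
  rw [Qb_apply, lp.coeFn_sum, Finset.sum_apply, ← Finset.sum_pi_single k (fun j => x j)]
  refine Finset.sum_congr rfl fun j _ => ?_
  show (lp.single 2 j (x j) : XX P D) k = _
  rw [lp.coeFn_single]

theorem Qb_norm (h : S_LP2) (c : ℕ) (x : XX P D) : ‖Qb P D c x‖ ≤ ‖x‖ := by
  have h1 := (h P D (Qb P D c x)).1
  have h2 := (h P D x).1
  have h3 : ‖Qb P D c x‖ ^ 2 ≤ ‖x‖ ^ 2 := by
    refine hasSum_le (fun k => ?_) h1 h2
    rw [Qb_coord]
    split_ifs
    · exact le_rfl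
    · rw [norm_zero, zero_pow two_ne_zero]
      positivity
  exact (pow_le_pow_iff_left₀ (norm_nonneg _) (norm_nonneg _) two_ne_zero).1 h3

theorem ql (h : S_LP2) : S_QL := by
  intro P D ω u f hN
  refine tendsto_tsum_of_dominated_convergence (bound := ω) hN.hs ?_ ?_
  · intro i
    have h1 : Tendsto (fun c => Qb P D (c + 1) (u i)) atTop (𝓝 (u i)) := by
      have h2 := ((h P D (u i)).2.1.tendsto_sum_nat).comp (tendsto_add_atTop_nat 1)
      refine h2.congr fun c => ?_
      rw [Qb_apply]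
      rfl
    exact ((f i).continuous.tendsto _ |>.comp h1).const_mul _
  · refine Eventually.of_forall fun c i => ?_
    rw [norm_mul, Complex.norm_real, Real.norm_of_nonneg (hN.hω i)]
    have h1 : ‖f i (Qb P D (c + 1) (u i))‖ ≤ 1 := by
      calc ‖f i (Qb P D (c + 1) (u i))‖ ≤ ‖f i‖ * ‖Qb P D (c + 1) (u i)‖ := (f i).le_opNorm _
        _ ≤ 1 * 1 := by
          refine mul_le_mul (hN.hf i) ((Qb_norm P D h _ _).trans (hN.hu i)) (norm_nonneg _)
            zero_le_one
        _ = 1 := one_mul 1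
    calc ω i * ‖f i (Qb P D (c + 1) (u i))‖ ≤ ω i * 1 :=
          mul_le_mul_of_nonneg_left h1 (hN.hω i)
      _ = ω i := mul_one _

end Pool.Agent.Helper56.HL
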