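import Pool.Agent.Helper25.HL.Goals1

/-!
Packet HL-COH (MP_03bcbb_an).
-/

set_option autoImplicit false

noncomputable section

namespace Pool.Agent.Helper56.HL

open Pool.Agent.Helper25.HL

theorem Rm_sq {p q : ℕ} (σ : Fin p → Fin q → Bool) (a : Fin p) (t : Fin q) :
    Rm σ a t * Rm σ a t = 1 / p := by
  unfold Rm
  rw [div_mul_div_comm, Real.mul_self_sqrt (Nat.cast_nonneg p)]
  congr 1
  split_ifs <;> norm_num

theorem gram_diag {p q : ℕ} (hp : 1 ≤ p) (σ : Fin p → Fin q → Bool) (t : Fin q) :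
    ∑ a, Rm σ a t * Rm σ a t = 1 := by
  rw [Finset.sum_congr rfl fun a _ => Rm_sq σ a t, Finset.sum_const, Finset.card_univ,
    Fintype.card_fin, nsmul_eq_mul]
  have : (p : ℝ) ≠ 0 := by positivity
  field_simp

theorem sq_RV {p q : ℕ} (σ : Fin p → Fin q → Bool) (β : Fin q → ℂ) :
    ((Helper25.HL.sq (RV σ β) : ℝ) : ℂ) =
      ∑ s, ∑ t, (starRingEnd ℂ) (β s) * β t * ((∑ a, Rm σ a s * Rm σ a t : ℝ) : ℂ) := by
  have h1 : ∀ a, ((‖RV σ β a‖ ^ 2 : ℝ) : ℂ) =
      ∑ s, ∑ t, (starRingEnd ℂ) (β s) * β t * ((Rm σ a s * Rm σ a t : ℝ) : ℂ) := by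
    intro a
    have h2 : RV σ β a = ∑ t, (Rm σ a t : ℂ) * β t := rfl
    rw [Complex.ofReal_pow, ← Complex.conj_mul', h2, map_sum, Finset.sum_mul_sum]
    refine Finset.sum_congr rfl fun s _ => Finset.sum_congr rfl fun t _ => ?_
    rw [map_mul, Complex.conj_ofReal, Complex.ofReal_mul]
    ring
  unfold Helper25.HL.sq
  rw [Complex.ofReal_sum, Finset.sum_congr rfl fun a _ => h1 a, Finset.sum_comm]
  refine Finset.sum_congr rfl fun s _ => ?_
  rw [Finset.sum_comm]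
  refine Finset.sum_congr rfl fun t _ => ?_
  rw [Complex.ofReal_sum, Finset.mul_sum]

theorem coh : S_COH := by
  intro p q σ hp hP β
  have hc : 0 ≤ (p : ℝ) ^ (-(1 / 4 : ℝ)) := Real.rpow_nonneg (Nat.cast_nonneg p) _
  have h0 : 0 ≤ Helper25.HL.sq (RV σ β) := Finset.sum_nonneg fun a _ => by positivity
  have h1 : Helper25.HL.sq (RV σ β) = ‖((Helper25.HL.sq (RV σ β) : ℝ) : ℂ)‖ := by
    rw [Complex.norm_real, Real.norm_of_nonneg h0]
  rw [h1, sq_RV]
  have hb : ∀ s t, |∑ a, Rm σ a s * Rm σ a t| ≤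
      (if s = t then 1 else 0) + (p : ℝ) ^ (-(1 / 4 : ℝ)) := by
    intro s t
    by_cases hst : s = t
    · subst hst
      rw [gram_diag hp, if_pos rfl, abs_one]
      linarith
    · rw [if_neg hst, zero_add]
      exact hP s t hst
  calc ‖∑ s, ∑ t, (starRingEnd ℂ) (β s) * β t * ((∑ a, Rm σ a s * Rm σ a t : ℝ) : ℂ)‖
      ≤ ∑ s, ∑ t, ‖(starRingEnd ℂ) (β s) * β t * ((∑ a, Rm σ a s * Rm σ a t : ℝ) : ℂ)‖ :=
        (norm_sum_le _ _).trans (Finset.sum_le_sum fun s _ => norm_sum_le _ _)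
    _ ≤ ∑ s, ∑ t, ‖β s‖ * ‖β t‖ * ((if s = t then 1 else 0) + (p : ℝ) ^ (-(1 / 4 : ℝ))) := by
        refine Finset.sum_le_sum fun s _ => Finset.sum_le_sum fun t _ => ?_
        rw [norm_mul, norm_mul, RCLike.norm_conj, Complex.norm_real, Real.norm_eq_abs]
        exact mul_le_mul_of_nonneg_left (hb s t) (by positivity)
    _ = Helper25.HL.sq β + (p : ℝ) ^ (-(1 / 4 : ℝ)) * (l1 β) ^ 2 := by
        simp only [mul_add, Finset.sum_add_distrib, mul_ite, mul_one, mul_zero,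
          Finset.sum_ite_eq, Finset.mem_univ, if_true]
        congr 1
        · unfold Helper25.HL.sq
          exact Finset.sum_congr rfl fun s _ => by ring
        · unfold l1
          rw [pow_two, Finset.sum_mul_sum, Finset.mul_sum]
          refine Finset.sum_congr rfl fun s _ => ?_
          rw [Finset.mul_sum]
          exact Finset.sum_congr rfl fun t _ => by ring

end Pool.Agent.Helper56.HL
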